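import Mathlib
import Pool.Agent.U46.EX11

/-!
# The noncommutative Hodge conjecture for `D(A ^ n) ⊠ C`, for the members `A` of ANY family of abelian
# varieties and all categories `C`, outside a small set of members

Let `A → U` be any holomorphic family of principally polarized abelian varieties of dimension `g` over
an open subset `U` of `ℂ ^ d`, given by its period matrices `Z t`; for instance `U` is the Siegel space.
Nothing is assumed about the members. An admissible subcategory `C` of `D(Y)`, `Y` a smooth proper
variety, is given by the Hodge structure `C : Coh v` on `K_0^top(C) ⊗ ℚ ⊕ K_1^top(C) ⊗ ℚ = ℚ ^ v` (even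
and odd degrees; the Hodge operator is multiplication by `p - q` on the component of type `(p, q)`, that
is, on `HH_(p - q)(C)`). Let `e(g, 0) = g (g - 1) / 2` and `e(g, 3) = 4, 6, 9, 12, 16, 20, 25, 32, 40` for
`g = 4, ..., 12`, in general `e(g, 3) = [max (g ^ 2 / 4, 4 + (g - 4) (g - 3) / 2)]`.

All statements are on the members `A_t` outside a union of countably many complex submanifolds of `U` of
codimension `r - e`, where `r` is (a lower bound for) the number of moduli of the family at `t`, the
rank of the Kodaira-Spencer map. For the Siegel space, `r = g (g + 1) / 2`, these submanifolds have
dimension `e`.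

**Theorem.** (1) Let `C` be any category. For all `t` outside countably many submanifolds of codimension
`r - e(g, 0)` and all `n`, the Hodge classes in `K_0^top(D(A_t ^ n) ⊠ C) ⊗ ℚ` are the sums of products
`f ⊗ x` of a combination `f` of products of divisor classes on `A_t ^ n` and a Hodge class `x` in
`K_0^top(C) ⊗ ℚ`, and the noncommutative Hodge conjecture for `C` implies it for `D(A_t ^ n) ⊠ C`. (No
class of `K_1^top(C)` contributes.)
(2) The same is true for all `C` whose Hodge operator is defined over a given countable field `K`, with
one exceptional set.
(3) For all `t` outside countably many submanifolds of codimension `r - e(g, 3)` the noncommutative Hodge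
conjecture is true for all categories which are direct factors (by kernels, with rational coefficients)
of finite sums of `D(X)`, where `X` is `A_t ^ n` or any abelian variety whose simple factors are factors
of `A_t` or in two further classes (`AllowedFactor`).

The starting results treat categories generated by small abelian varieties or those of CM type, and
`SurfacesTimesUnrelatedCategories` treats surfaces; here the abelian varieties are arbitrary (outside the
exceptional set) and in (1), (2) nothing is assumed about `C`.

The proof. If `e + 1` of the entries of `Z t` are algebraically independent over `K`, the theorem of the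
library on abelian varieties with independent periods (`Pool.Agent.X311.many_periods`) describes the Hodge
classes on `A_t ^ n × Y` for all Hodge structures over `K`; a product of divisor classes has even degree,
so only `K_0^top(C)` contributes. For (3) the theorem `Pool.Agent.U228.MP.ghc_many` is used. At the other
points `t` there are `r - e` polynomials over `K` which vanish at the values of `r` entries and which,
composed with the entries, have independent differentials at `t` (`Pool.Agent.U46.EX.exceptional`).
-/

set_option autoImplicit false

namespace Pool.Agent.Results.MP_43e44c_ag.FamiliesTimesCategories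

open Pool.Agent.U46.EX Pool.Agent.TH131.GHC

/-- **The noncommutative Hodge conjecture outside countably many submanifolds of large codimension**,
for any holomorphic family `Z` of period matrices over an open set `U`. -/
theorem result {g d : ℕ} {U : Set (Fin d → ℂ)} (Z : (Fin d → ℂ) → Matrix (Fin g) (Fin g) ℂ)
    (hol : ∀ i j, AnalyticOnNhd ℂ (fun t => Z t i j) U)
    (hZ : ∀ t ∈ U, (Z t).transpose = Z t ∧ ((Z t).map Complex.im).PosDef) (r : ℕ) :
    (∀ {v : ℕ} (C : Coh v),
      InSubmanifolds U {t | t ∈ U ∧ r ≤ moduli Z t ∧ ¬ TransfersNC (Z t) C} (r - excDim g 0)) ∧
    (∀ (K : Subfield ℂ) [Countable K],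
      InSubmanifolds U {t | t ∈ U ∧ r ≤ moduli Z t ∧ ¬ TransfersOver K (Z t)}
        (r - excDim g 0)) ∧
    InSubmanifolds U {t | t ∈ U ∧ r ≤ moduli Z t ∧ ¬ NCForFactors (Z t)} (r - excDim g 3) :=
  ⟨fun C => exceptional_nc_one Z hol hZ C r, fun K _ => exceptional_nc K Z hol hZ r,
    exceptional_factors Z hol r⟩

end Pool.Agent.Results.MP_43e44c_ag.FamiliesTimesCategories
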