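import Pool.Agent.U231.HF.NCKFin
import Pool.Agent.U231.HF.Large

/-!
# The noncommutative Hodge conjecture for the products of arbitrary admissible subcategories with Fermat varieties

Let `Z` be **any** smooth projective variety and `C` **any** admissible subcategory of the category of perfect complexes on `Z`.
Let `B ≥ 1` be a bound for the dimensions of the simple Hodge substructures **of CM type** of the rational topological K-theory
`K_0 ⊕ K_1` of `C`; for instance any bound for its dimension will do, and `B = 1` if the only simple substructures of CM type are
the lines of Hodge classes. Let `X_i` be products of Fermat varieties `x_0 ^ N_i + ⋯ + x_{n+1} ^ N_i = 0` of the same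
prime degree `N_i`, and let the degrees `N_i` be different. Let `s_i` be the number of all coordinates used for `X_i`, i.e. the
sum of the numbers `n + 2` of the factors. Suppose for all `i` that `N_i > s_i B + 1`, or only that every odd divisor `m ≤ s_i` of
`N_i - 1` satisfies `m B < N_i - 1`. Let `X_L` be the product of some of the `X_i` (each taken once).

**Theorem.** (1) Every Hodge class in `K_0^top(perf(X_L) ⊠ C) ⊗ ℚ` is a sum of external products `a_1 × ⋯ × a_r × y` of classes of
algebraic cycles on the `X_i` and Hodge classes `y` in `K_0^top(C) ⊗ ℚ`.

(2) **The noncommutative Hodge conjecture holds for `perf(X_L) ⊠ C` if and only if it holds for `C`.**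

So for a given category `C` the theorem applies to all primes `N_i` with finitely many exceptions. It applies for
all dimensions of the Fermat varieties and all numbers of them if a power of `2` which divides `N_i - 1` is greater than `B`;
in particular, for `B = 1` it applies **to all odd primes `N_i`, without any condition**, for instance if `C` is the K3
category of a very general cubic fourfold. The noncommutative Hodge conjecture follows for `perf(X_L) ⊠ C` if `C` is an
admissible subcategory for a variety `Z` of dimension at most three, or the K3 category of an arbitrary cubic fourfold or
Gushel-Mukai variety (where `B = 22` will do for all of them), and so on. The condition concerns only `C`, not `Z`.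

**The formal setting.** The framework is that of the starting files `Pool.Agent.Y121.AHS`. A `HodgeTheory` is a Weil cohomology
theory `W` with rational coefficients with a Hodge decomposition `pq` of the cohomology `HL W ℂ X` with complex coefficients,
compatible with products, pull-backs, push-forwards and cycle classes, with polarisations. We use the Mukai vector to
identify the rational topological K-theory `K_0 ⊕ K_1` of a variety with its cohomology; the classes of the objects are the classes
of algebraic cycles (sums of classes of all codimensions). The kernel of the projection functor onto the subcategory gives a
projector of the K-theory of `Z`; its image `C` is the K-theory of the subcategory, and a class in it is algebraic (resp. a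
Hodge class) if it is so on `Z` (`IsSumOf (IsAlg …)`, `IsSumOf (IsHodge …)`); so `NCHodge T Z C` is the noncommutative Hodge
conjecture for the subcategory. The kernel for `perf(X_L) ⊠ C` acts as the identity tensor the kernel for `C`, so the K-theory of
`perf(X_L) ⊠ C` is `H(X_L) ⊗ C` (`productsTop`).

The middle cohomology of a Fermat variety `X` of degree `N` and dimension `n` is, with complex coefficients, the direct sum of
the eigenspaces `V_a` of the group `μ_N ^ (n+2)`, where `a = (a_0, …, a_{n+1})` consists of residues modulo `N` different
from `0` with the sum `0` (and of the class of linear sections, with the empty multiset `a`). The Hodge type of `V_a` is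
`(p, q)` with `p - q = ∑_j (2 ⟨a_j / N⟩ - 1) = (1 / N) ∑_j saw (a_j)` (up to the sign), where `saw (b) = 2 b - N` for
`0 < b < N`. If an automorphism of `ℂ` raises the roots of unity of order `N` to the power `c`, then it maps `V_a` to
`V_{c a}`. If the multisets `a` and `-a` are equal then `V_a` is spanned by the classes of linear subspaces (Ran, Shioda). For
products of Fermat varieties of the degree `N` one takes the tensor products, and the multisets are added; if the
multiset is symmetric then the classes are algebraic by Shioda's inductive structure. This is what
`IsFermatDecomposition` says, and nothing else is assumed of the `X_i` (and that there is a zero-cycle of nonzero degree).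

`HasKPieces T B Z C` says that `H(Z, ℚ)` is a direct sum of subspaces `U` which are substructures for the Hodge structure of
topological K-theory (where only `p - q` matters), and for each of them, either `U` has dimension at most `B`, or it has no pure
element `v ≠ 0` in `U_ℂ`, or all elements of `C` have the component `0` in `U` (so one takes for these `U` the K-theory of the
orthogonal complement of the subcategory, which is arbitrary). Here `v` is pure if every conjugate `σ(v)`, `σ ∈ Aut(ℂ)`, is a sum
of elements of types `(p, q)` with one value of `p - q`. The Mumford-Tate group acts on the line of a pure element by a
character, so a polarisable `U` has such elements if and only if it has a substructure of CM type.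

**The proof.** Let `y` be a Hodge class on `X_1 × ⋯ × X_r × Z` in `H(X_L) ⊗ C`. Suppose that `y` has a component different from
`0` for the characters `a_i` of the `X_i`, where `a = a_1` is not symmetric. The contractions `v` of this component with linear forms
are in `C` with complex coefficients. Let `G` be the operator which is multiplication by `2 ^ (p - q)` on `H ^ (p, q)`; it is a
ring automorphism, commutes with pull-backs and fixes `y`. For automorphisms `t` of the field `ℂ` the conjugates `t G t⁻¹` act on
`v` by known scalars: since `y` is rational and a Hodge class, the exponent is `- ∑_i S_i (t) / N_i`, where `S_i (t)` is the sum of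
the sawtooth function over the multiset `c_i (t) a_i`, and `c_i` is the cyclotomic character modulo `N_i`. The same is true for
the projections of `v` to the substructures `U` in the decomposition of `H(Z, ℚ)`; so these are pure, and one which is different
from `0` is in a substructure `U` with `dim U ≤ B`; we replace `v` by it. Now choose automorphisms `g` of `ℂ` with a given value
of `c_1 (g)` and with `c_i (g) = 1` for `i ≠ 1`. The vectors `g v` are again in `U_ℂ`, and two of them have different eigenvalues
for some `t G t⁻¹`, unless they have the same function `t ↦ S_1 (t g)`. So these vectors are linearly independent, and the
stabilizer `H` of the function `t ↦ S_1 (t)` in `(ℤ/N_1)ˣ` has index at most `dim U ≤ B`. The function is the convolution of the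
sawtooth function with the odd part of the multiplicity function of `a`. Since the generalized Bernoulli numbers `B_{1,χ}` of the
odd characters are different from `0`, the odd part is determined by the convolution, so it is invariant under `H`. It is not
zero, since `a` is not symmetric. So `-1` is not in `H`, the order `m` of `H` is an odd divisor of `N_1 - 1`, and the support
of `a` contains a coset of `H`, so `m ≤ s_1`. But `m B ≥ N_1 - 1`, a contradiction. So only symmetric, algebraic
characters occur. Hence `y = ∑ b_l × y_l` with algebraic classes `b_l` on `X_1`, and `y_l` is the contraction of `y` with an
algebraic class on `X_1`, which is a Hodge class in `H(X_2) ⊗ ⋯ ⊗ H(X_r) ⊗ C`. This gives (1) by induction, and (2) follows; the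
converse in (2) follows by taking `1 × y` and the push-forward of the product with a zero-cycle on `X_i`.

helper231. The nonvanishing of the Bernoulli numbers is from the starting file `Pool.Agent.H916R2.Indep` (Mathlib has
Dirichlet's theorem on `L(1, χ)`), the automorphisms of `ℂ` with given cyclotomic characters are from
`Pool.Agent.Helper475.ExistsRingequivPow`.
-/

set_option autoImplicit false

open CategoryTheory AlgebraicGeometry

universe u

namespace Pool.Agent.Results.MP_43e44c_ag.FermatTimesArbitrary

open Pool.Agent.H914 Pool.Agent.Y121.AHS Pool.Agent.U231.HF

/-- **The noncommutative Hodge conjecture for products of arbitrary admissible subcategories with varieties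
of Fermat type.** -/
theorem result {k : Type u} [Field k] {𝒱 : VarClass k} {ops : CycleOps 𝒱} (T : HodgeTheory ops)
    {ι : Type} (N s : ι → ℕ) (X : ι → 𝒱.Obj) (hX : AreFermatFactors T N s X)
    (Z : 𝒱.Obj) (C : Set (T.W.H Z)) (hC : IsSubspace T.W.K C) {B : ℕ} (hB : 0 < B)
    (hZ : HasKPieces T B Z C) (hN : ∀ i, IsLarge (N i) (s i) B) (L : List ι) (hL : L.Nodup) :
    (∀ x, IsHodgeIn T (productOf X Z L) (productsTop X C L) x → IsExtOf X (IsHodgeIn T Z C) L x) ∧
      (NCHodge T (productOf X Z L) (productsTop X C L) ↔ NCHodge T Z C) :=
  ⟨fun _ h => hodge_ext hX hC hB hZ hN hL h, nc_iff hX hC hB hZ hN hL⟩

end Pool.Agent.Results.MP_43e44c_ag.FermatTimesArbitrary
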