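import Mathlib
import Pool.Agent.U191.CMHalf
import Pool.Agent.Y1.KN.Use
import Pool.Agent.R299.NCH.Main

/-!
# The noncommutative Hodge conjecture for `D(A) ⊠ 𝒟`, for the abelian varieties `A` of one half of
all CM types of every CM field of degree `2 r ^ k` and all small admissible subcategories `𝒟`

Let `𝒟` be an admissible subcategory of `D^perf(Z)`, for a smooth proper complex variety `Z`. Its
topological K-theory `K^top(𝒟) = K^top_0(𝒟) ⊕ K^top_1(𝒟)` is a direct summand of the one of `Z`,
with its Hodge structure. In the statement the rational topological K-theory of `Z` (the rational
cohomology, by the Chern character) is `V : Coh v`, a space `ℚ ^ v` with the Hodge operator `V.z`,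
the multiplication by `p - q` on the classes of type `(p, q)`, and `𝒟` is given by the projector
`P` of this space defined by the projection functor onto `𝒟` (`IsProjector`: `P` is idempotent and
commutes with the Hodge operator). So `K^top(𝒟) ⊗ ℚ` is the image of `P`, and its Hodge classes
(`IsHodgeD`) are the elements of the image of `P` that are killed by `V.z`, that is, whose
complexification is in `HH_0(𝒟)`.

**The property of the CM types** (`NCHodgeTimes`). Let `E` be a CM field of degree `2 g`, with a
CM type `Φ`. Let `A` be any power of the abelian variety of CM type `(E, Φ)`, and let `𝒟` be
**any** admissible subcategory of any `D^perf(Z)` which is unrelated to `E` (`Unrelated`, see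
below). Then

* every Hodge class in `K^top_0(D(A) ⊠ 𝒟) ⊗ ℚ` is a sum of products `f ⊗ x`, where `f` is a
  combination of products of divisor classes on `A` and `x` is a Hodge class in `K^top_0(𝒟) ⊗ ℚ`;
* **the noncommutative Hodge conjecture for `D(A) ⊠ 𝒟` is equivalent to the noncommutative Hodge
  conjecture for `𝒟`.** In particular it is true for `D(A) ⊠ 𝒟` if it is true for `𝒟`: for the K3
  categories of cubic fourfolds and Gushel-Mukai varieties, for all admissible subcategories of
  `D^perf(Z)` for the varieties `Z` of dimension at most three, for noncommutative curves and
  surfaces, for the categories of modules over finite dimensional algebras of finite global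
  dimension, and so on.

Here `D(A) ⊠ 𝒟` is the admissible subcategory of `D^perf(A × Z)` generated by the products of
objects of `D(A)` and `𝒟`; it is the base change of `𝒟`. Its topological K-theory consists of the
forms on the homology `W` of `A` with values in `K^top(𝒟)` (`IsHodgeAD`, in `HAZ W v`, the
cohomology of `A × Z`). Of the classes of objects, `alg` and `algA`, only two properties are used
(`IsObjectClasses`): the product of a product of divisor classes on `A` and the class of an object
of `𝒟` is in the span of the classes of objects of `D(A) ⊠ 𝒟`; and the restriction to the fibre
over the origin of `A` maps objects of `D(A) ⊠ 𝒟` to objects of `𝒟`.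

The condition on `𝒟` depends only on the Hodge structure of `𝒟`, not on `Z`. Let `w ≠ 0` be a
vector in `K^top(𝒟) ⊗ ℂ` such that for each automorphism `σ` of `ℂ` the conjugate `σ w` is of pure
type, a sum of classes of types `(p, q)` with `p - q = d σ`. The condition is that for all such
`w` a function `n` on the complex embeddings of `E` with `n (conj φ) = - n φ` which is invariant
under all automorphisms `τ` of `ℂ` with `d (σ τ) = d σ` for all `σ` is zero. So it is true for all
CM fields `E` if `K^top(𝒟)` has no sub-Hodge structures with complex multiplication except those
of type `(0, 0)`: for instance for the K3 category of a very general cubic fourfold; and for all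
`𝒟` whose `K^top(𝒟)` has small rank (starting result BoxWithCMVarieties, `RankCriterion`).

**The theorem.** Let `E` be **any CM field of degree `2 g = 2 r ^ k`**, `r` a prime number, of
degree at least `16` if `r = 2`. Nothing is assumed about the Galois group of the normal closure
of `E`, and nothing about the subfields of `E`.

* (`MostOfAll`) The property is true for **at least `(1 - 1 / r) 2 ^ g` of the `2 ^ g` CM types** of
  `E`: at least one half of all CM types if `r = 2`.
* (`OneOfTwo`) There is a set `B` of embeddings of `E`, stable under complex conjugation, such that
  for **every** CM type `Φ` it is true for `Φ` or for the symmetric difference of `Φ` and `B`.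
* (`SixteenPercent`) There is a number `g₀` such that for every CM field that is **abelian over
  `ℚ`**, of any degree `2 g ≥ 2 g₀`, it is true for at least 16 percent of all `2 ^ g` CM types;
  again nothing is assumed on the subfields.

The same is true for the products `A` of powers of the abelian varieties of the types `Φ i` of
finitely many CM fields `E i` that are pairwise independent and all `𝒟` unrelated to all `E i`;
here the fields are pairwise independent if for `i ≠ k` and all complex embeddings `φ` of `E i`
and `ψ` of `E k` some automorphism of `ℂ` is the identity on `φ (E i)` and the complex conjugation
on `ψ (E k)` (this is no condition for one field); the proportions are then multiplied.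

The earlier result for this problem (BoxWithCMVarieties) treats almost all CM types of the fields
with few CM subfields, or whose degree has a large prime factor; it says nothing for the fields of
2-power degree with many CM subfields, for instance the abelian ones (and its comment says by
mistake that almost all CM types of a multiquadratic field are degenerate; it is about one half of
them). One half is the best possible proportion for the CM types without relations if `r = 2`. For
odd `r` the bound for the number of the degenerate CM types is in the starting files
(`Pool.Agent.H977R3.CM.ncard_exceptional_le`). The proof joins two parts of the library of the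
starting files: the theorem that one half of all types have no relations (`Pool.Agent.Q29.EP`,
written for the conjecture of Parshin, MP_de59b4_ag), and the consequences of nondegeneracy for
this problem (`Pool.Agent.Y1.HZ`, `Pool.Agent.R299.NCH`).
-/

set_option autoImplicit false

namespace Pool.Agent.Results.MP_43e44c_ag.MostCMTypes

open NumberField Module Pool.Agent.H204R3.CM Pool.Agent.H977R3.CM Pool.Agent.Y1.KN
  Pool.Agent.Y1.HZ Pool.Agent.R299.NCH Pool.Agent.U191.CMHalf

/-- The property of the CM types `Φ i`. -/
def Q : CMProperty := fun _ _ _ _ _ _ Φ => NCHodgeTimes Φ

/-- **The noncommutative Hodge conjecture for `D(A) ⊠ 𝒟` is equivalent to the noncommutative Hodge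
conjecture for `𝒟`, for the abelian varieties `A` of one half of all CM types of every CM field of
degree `2 r ^ k`, and for all unrelated `𝒟`.** -/
theorem result : MostOfAll Q ∧ OneOfTwo Q ∧ SixteenPercent Q := by
  have h : WithoutRelations Q := fun _ _ _ _ _ _ _ hind hΦ hno =>
    ncHodgeTimes_of_hodgeTimes (hodgeTimes_of_not_degenerate hΦ hind fun i => not_degenerate (hΦ i)
      (Pool.Agent.Q29.DP.notMem_degTypes_of_noRelations (hno i)))
  exact ⟨mostOfAll h, oneOfTwo h, sixteenPercent h⟩

end Pool.Agent.Results.MP_43e44c_ag.MostCMTypes
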