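import Pool.Agent.U228.GP.Unrel

/-!
# The noncommutative Hodge conjecture for `D(S_1 × ... × S_m) ⊠ 𝒜`, for surfaces with a large Hodge
# group and all admissible categories `𝒜` which are unrelated to the surfaces

Let `S_0, ..., S_(r-1)` be smooth projective complex surfaces with `b_1 = 0` and let `T = ⊕ T_i`, `T_i`
the transcendental part of `H^2(S_i)(1)`. Assume that the Hodge group of `T` is the product of the
groups `SO(T_i)`, of ranks `k i` at least `3` and not `4` (`Full`: every complex Lie algebra of matrices
containing all the conjugates of the Hodge operator contains `⊕ so(T_i)`). This is true if the only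
endomorphisms of the Hodge structure `T` are the rational scalars on the `T_i` and each `S_i` has
geometric genus `p_i = 1` and `q_i ≠ 0, 2` (for example K3 surfaces without real or complex
multiplication, pairwise not isogenous) or `2 p_i ^ 2 (p_i ^ 2 + 1) < (q_i - 2 p_i) (q_i + p_i)`, where
`(p_i, q_i, p_i)` are the Hodge numbers of `T_i` (`HS.Big`).

Let `𝒜` be an admissible subcategory of `D^perf(Z)`, for a smooth proper complex variety `Z`, and
`V = K_0^top(𝒜) ⊗ ℚ` with its Hodge structure of weight zero (`V.z` is the operator which is
multiplication by `p` on the component of type `(p, -p)`, the group `HH_(2p)(𝒜)`). Assume that for each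
`i` one of the following conditions holds (`Unrelated`; `𝔥` is the Lie algebra of the Hodge group of
`V`, generated by the conjugates of `V.z`).

* There is no homomorphism of Lie algebras from `𝔥` which takes each conjugate of the Hodge operator of
  `V` to the conjugate of the Hodge operator of `T_i` (`NoQuot`: `so(T_i)` is not a quotient of `𝔥`).
* `𝒜` is of CM type: the conjugates of the Hodge operator of `V` commute.
* For some `l`, the component of type `(l, -l)` of `𝔥` has smaller dimension than the one of `so(T_i)`.
* The Hodge operator of `𝒜` is defined over a subfield `K` of `ℂ` (with respect to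
  `K_0^top(𝒜) ⊗ ℚ`), over which some entry of the Hodge operator of `T_i` is transcendental.

There is no condition on the type of `𝒜`, its dimension or its Hochschild numbers.

**Theorem.** A class `t` in `K_0^top(D(S_(a 1) × ... × S_(a m)) ⊠ 𝒜) ⊗ ℚ` (for surfaces with `b_1 = 0`
this is the tensor product of the total cohomology groups of the `S_(a j)` and of `V`) which for each
`i` has less than `k i` factors in `T_i` is a Hodge class if and only if it is a sum of products
`α ⊗ x`, where `α` is a product of algebraic classes of the surfaces and of transcendental parts of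
diagonals of pairs of equal surfaces, and `x` is a Hodge class in `K_0^top(𝒜) ⊗ ℚ`. So the
noncommutative Hodge conjecture for `𝒜` implies the one for `D(S_(a 1) × ... × S_(a m)) ⊠ 𝒜`, if each
surface `S_i` occurs less than `k i` times: if the Hodge classes of `𝒜` are in the span `A` of the classes
of objects of `𝒜`, then `t` is a combination of products of algebraic classes `α` and elements of `A`.

The proof. New (`Pool.Agent.U228.GP.Quot`, `Num`, `Stab2`): the operators in `so(T)` which kill `t` form
an ideal of `so(T)`, because the conjugates of the Hodge operators of `T` and `V` have equal actions on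
`t`. This ideal is not zero on `T_i`: otherwise the Lie algebra of the pairs of operators on `T` and
`V` with equal actions on `t` defines a homomorphism from `𝔥` to `so(T_i)` (Goursat); in the case of the
field `K`, the ideal contains the derivative of the Hodge operator of `T` for a derivation of `ℂ` over
`K`. So `so(T)` kills `t`, and the coefficients of `t` are Hodge classes on the product of the surfaces
and of `V`. The Hodge classes on the product of the surfaces are those of the library (`hcFull`).
-/

set_option autoImplicit false

open Matrix Finset Module

namespace Pool.Agent.Results.MP_43e44c_ag.SurfacesTimesUnrelatedCategories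

open Pool.Agent.W544.PG Pool.Agent.TH164.HC Pool.Agent.U228.GP

/-- **Hodge classes in `K_0^top(D(S_(a 1) × ... × S_(a m)) ⊠ 𝒜)`.** The cohomology of the `S_i` is the
sum of `ℚ^s` (algebraic classes; the `e`-th is on `S_(d e)`) and of `T = ℚ^n` (the `b`-th basis vector is
in `T_(c b)`), `K_0^top(𝒜) ⊗ ℚ` is `V`, and `t J b` is the coefficient of the class `t` at the basis
vector given by `J` and `b`. -/
theorem result {n r s v m : ℕ} (T : HS n) (c : Fin n → Fin r) (k : Fin r → ℕ) (V : HZ v)
    (hT : Full T c k ∨ ∃ p q, T.Big c p q ∧ ∀ i, k i = 2 * p i + q i)
    (hV : ∀ i, Unrelated T c V.z i) (d : Fin s → Fin r) (a : Fin m → Fin r)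
    (t : (Fin m → Fin s ⊕ Fin n) → Fin v → ℚ)
    (hta : ∀ J b, t J b ≠ 0 → ∀ j, Sum.elim d c (J j) = a j)
    (htr : ∀ J b, t J b ≠ 0 → ∀ i,
      (univ.filter fun j => ∃ e, J j = Sum.inr e ∧ c e = i).card < k i) :
    (IsHodgeZ T V t ↔ t ∈ products (T.algP c d a) V.Hdg) ∧
    ∀ A : Submodule ℚ (Fin v → ℚ), V.Hdg ≤ A → IsHodgeZ T V t → t ∈ products (T.algP c d a) A := by
  have hT' : Full T c k := by
    rcases hT with h | ⟨p, q, h, hk⟩
    · exact h
    · have h1 : k = fun i => 2 * p i + q i := funext hk
      rw [h1]
      exact full_of_big h
  have h := hodge_unrelated hT' hV d a t hta htr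
  refine ⟨h, fun A hA ht => ?_⟩
  refine Submodule.span_mono ?_ (h.1 ht)
  rintro f ⟨α, hα, x, hx, rfl⟩
  exact ⟨α, hα, x, hA hx, rfl⟩

end Pool.Agent.Results.MP_43e44c_ag.SurfacesTimesUnrelatedCategories
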